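import Pool.Agent.MP_a9a3e0_al.Main
import Pool.Agent.MP_a9a3e0_al.Stmt

/-! Homomorphisms between commutator subgroups of braid groups that do not extend. -/

set_option autoImplicit false

namespace Pool.Agent.Results.MP_a9a3e0_al.NoExtension

open Pool.Agent.MP_a9a3e0_al

/-- For `n ≥ 4` and `m ≥ n! / 8` there is a nontrivial homomorphism `[B_n, B_n] → [B_m, B_m]`,
injective if `n ≥ 5`, that is not the restriction of a homomorphism `B_n → B_m`. -/
theorem result (n m : ℕ) (hn : 4 ≤ n) (hm : n.factorial ≤ 8 * m) :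
    HasNonExtendable (Braid n) (Braid m) (5 ≤ n) := by
  obtain ⟨ψ, h1, h2⟩ := main hn hm
  refine ⟨ψ, fun h => h2 ⟨1, fun x => ?_⟩, h1, h2⟩
  have h3 : ψ x = 1 := Subgroup.mem_bot.1 (h ▸ MonoidHom.mem_range.2 ⟨x, rfl⟩)
  rw [h3]; rfl

end Pool.Agent.Results.MP_a9a3e0_al.NoExtension
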